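import Pool.Agent.H49.CL.Targets

/-!
# Chains of equivalence relations: row LAY
-/

set_option autoImplicit false
set_option linter.unusedVariables false

namespace Pool.Agent.H46.CL

open Pool.Agent.H68.BP Pool.Agent.H58.SF Pool.Agent.H53.NR
open Pool.Agent.H57.AR (tp ty Ty)
open Pool.Agent.H44.KR (HB Tyi TpOn)
open Pool.Agent.H44.FB (CptC EmbC)
open Pool.Agent.H72.CH
open Pool.Agent.H49.CL
open Function

theorem tp_iff {V W : Type} {ρ : Sig} {𝔹 : Str ρ V} {x y : W → V} :
    tp 𝔹 x = tp 𝔹 y ↔ (∀ a b, x a = x b ↔ y a = y b) ∧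
      ∀ (l : Fin ρ.m) (z : Fin (ρ.ar l) → W), 𝔹 l (fun i => x (z i)) ↔ 𝔹 l (fun i => y (z i)) := by
  constructor
  · intro h
    exact ⟨fun a b => iff_of_eq (congrFun (congrFun (congrArg Prod.fst h) a) b),
      fun l z => iff_of_eq (congrFun (congrFun (congrArg Prod.snd h) l) z)⟩
  · rintro ⟨h2, h3⟩
    exact Prod.ext (funext fun a => funext fun b => propext (h2 a b))
      (funext fun l => funext fun z => propext (h3 l z))

section

variable {V : Type} {ρ : Sig} {𝔹 : Str ρ V} {m : ℕ} {lv : V → V → ℕ}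

/-- levels depend only on the types of pairs -/
theorem lv_tp (h : HV 𝔹 m lv) {J : Type} {x y : J → V} (hxy : tp 𝔹 x = tp 𝔹 y) (a b : J) :
    lv (x a) (x b) = lv (y a) (y b) := by
  refine h.inv ![x a, x b] ![y a, y b] ?_
  have h1 := tp_iff.1 hxy
  refine tp_iff.2 ⟨fun i j => ?_, fun l z => ?_⟩
  · fin_cases i <;> fin_cases j
    · exact h1.1 a a
    · exact h1.1 a b
    · exact h1.1 b a
    · exact h1.1 b b
  · have h2 := h1.2 l (fun i => if z i = 0 then a else b)
    have h3 : ∀ u : J → V, (fun i => (![u a, u b] : Fin 2 → V) (z i)) =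
        fun i => u (if z i = 0 then a else b) := by
      intro u
      funext i
      rcases h4 : z i with ⟨k, hk⟩
      interval_cases k
      · rfl
      · rfl
    rw [h3 x, h3 y]
    exact h2

/-- embeddings -/
def Emb (𝔹 : Str ρ V) (g : V → V) : Prop :=
  ∀ (J : Type) (a : J → V), tp 𝔹 (fun j => g (a j)) = tp 𝔹 a

theorem emb_lv (h : HV 𝔹 m lv) {g : V → V} (hg : Emb 𝔹 g) (a b : V) :
    lv (g a) (g b) = lv a b :=
  lv_tp h (hg (Fin 2) ![a, b]) 0 1

theorem emb_rel {g : V → V} (hg : Emb 𝔹 g) (l : Fin ρ.m) (z : Fin (ρ.ar l) → V) :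
    𝔹 l (fun i => g (z i)) ↔ 𝔹 l z :=
  (tp_iff.1 (hg (Fin (ρ.ar l)) z)).2 l id

theorem tp_on {W : Type} {A : Set W} {x y : W → V} (h : TpOn 𝔹 A x y) :
    tp 𝔹 (fun a : A => x a.1) = tp 𝔹 (fun a : A => y a.1) :=
  tp_iff.2 ⟨fun a b => h.1 a.1 a.2 b.1 b.2, fun l z => h.2 l (fun i => (z i).1) fun i => (z i).2⟩

theorem emb_on (hE : EmbC 𝔹) {W : Type} [Finite W] {A : Set W} {x y : W → V}
    (h : TpOn 𝔹 A x y) : ∃ g : V → V, Emb 𝔹 g ∧ ∀ a ∈ A, g (x a) = y a := by
  obtain ⟨g, h1, h2⟩ := hE A (fun a => x a.1) (fun a => y a.1) (tp_on h)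
  exact ⟨g, h1, fun a ha => h2 ⟨a, ha⟩⟩

theorem eq_lv (h : HV 𝔹 m lv) (a b : V) : a = b ↔ lv a b = m :=
  ⟨fun e => by rw [e]; exact h.lev.pl.self b, h.lev.eq a b⟩

end

theorem pf_LAY : T_LAY := by
  intro V ρ 𝔹 m lv hV hE M hR X _ ht N f f₀ Λ hN hht hΛ h0 hL hmix hfar
  have pl := hV.lev.pl
  obtain ⟨de, hde, hdf⟩ := emb_on hE h0
  obtain ⟨ga, hga, hgf⟩ := emb_on hE hL
  have hdf' : ∀ x, ht x = 0 → de (f x) = f₀ x := hdf
  -- the levels on the ends
  set E : Set X := {x | ht x = 0 ∨ x ∈ Λ} with hEdef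
  have lev0 : ∀ x ∈ E, ∀ y ∈ E, lv (f₀ x) (f₀ y) = lv (f x) (f y) := by
    rintro x (hx | hx) y (hy | hy)
    · rw [← hdf' x hx, ← hdf' y hy, emb_lv hV hde]
    · exact hmix x y hx hy
    · rw [pl.sym, hmix y x hy hx, pl.sym]
    · rw [← hgf x hx, ← hgf y hy, emb_lv hV hga]
  -- the families
  let s : Option ℕ → Set X := fun a => match a with
    | none => E
    | some k => {x | ht x = k ∨ ht x = k + 1}
  let S : Option ℕ → Str ρ X := fun a => match a with
    | none => fun l z => 𝔹 l (fun i => f₀ (z i))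
    | some k => fun l z => 𝔹 l (fun i => f (z i))
  obtain ⟨F, hF1, hF2⟩ := hR X (fun x y => lv (f x) (f y)) (Option ℕ) s S
    ⟨fun x y => pl.le _ _, fun x => pl.self _, fun x y => pl.sym _ _,
      fun x y z => pl.ult _ _ _⟩ (by
    classical
    intro U hU
    -- an empty layer
    obtain ⟨k, hk, hkU⟩ : ∃ k ∈ Finset.Icc 1 (N - 1), k ∉ U.image ht := by
      refine Finset.exists_mem_notMem_of_card_lt_card ?_
      refine lt_of_le_of_lt Finset.card_image_le ?_
      rw [Nat.card_Icc]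
      omega
    rw [Finset.mem_Icc] at hk
    have hkU' : ∀ x ∈ U, ht x ≠ k := fun x hx h => hkU (Finset.mem_image.2 ⟨x, hx, h⟩)
    let F : X → V := fun x => if ht x < k then de (f x) else ga (f x)
    have Fl : ∀ x, ht x < k → F x = de (f x) := fun x hx => if_pos hx
    have Fr : ∀ x, ¬ ht x < k → F x = ga (f x) := fun x hx => if_neg hx
    have hmid : ∀ x y, ht x < k → k < ht y → lv (f x) (f y) ≤ lv (F x) (F y) := by
      intro x y hx hy
      rcases Nat.eq_zero_or_pos (lv (f x) (f y)) with h | h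
      · rw [h]
        exact Nat.zero_le _
      obtain ⟨⟨r, hr, hr'⟩, l, hl, hl'⟩ := hfar x y _ (by omega) h le_rfl
      rw [Fl x hx, Fr y (by omega)]
      have e1 : lv (f x) (f y) ≤ lv (de (f x)) (f₀ r) := by
        rw [← hdf' r hr, emb_lv hV hde]
        exact hr'
      have e2 : lv (f x) (f y) ≤ lv (ga (f y)) (f₀ l) := by
        rw [← hgf l hl, emb_lv hV hga]
        exact hl'
      have e3 : lv (f x) (f y) ≤ lv (f₀ r) (f₀ l) := by
        rw [hmix r l hr hl]
        rw [pl.sym (f x) (f r)] at hr'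
        exact le_trans (le_min (le_trans (le_min hr' le_rfl) (pl.ult _ _ _)) hl')
          (pl.ult _ _ _)
      rw [pl.sym (ga (f y)) (f₀ l)] at e2
      exact le_trans (le_min (le_trans (le_min e1 e3) (pl.ult _ _ _)) e2) (pl.ult _ _ _)
    have hll : ∀ x y, ht x < k → ht y < k → lv (F x) (F y) = lv (f x) (f y) := by
      intro x y hx hy
      rw [Fl x hx, Fl y hy, emb_lv hV hde]
    have hrr : ∀ x y, ¬ ht x < k → ¬ ht y < k → lv (F x) (F y) = lv (f x) (f y) := by
      intro x y hx hy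
      rw [Fr x hx, Fr y hy, emb_lv hV hga]
    have hFE : ∀ x ∈ E, F x = f₀ x := by
      rintro x (hx | hx)
      · rw [Fl x (by omega), hdf' x hx]
      · have := hΛ x hx
        rw [Fr x (by omega), hgf x hx]
    refine ⟨F, ?_, ?_⟩
    · intro x hx y hy
      have hxk := hkU' x hx
      have hyk := hkU' y hy
      by_cases h1 : ht x < k
      · by_cases h2 : ht y < k
        · exact (hll x y h1 h2).ge
        · exact hmid x y h1 (by omega)
      · by_cases h2 : ht y < k
        · show lv (f x) (f y) ≤ lv (F x) (F y)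
          rw [pl.sym (f x), pl.sym (F x)]
          exact hmid y x h2 (by omega)
        · exact (hrr x y h1 h2).ge
    · intro a
      rcases a with _ | k'
      · refine ⟨fun x _ y _ hx' hy' => ?_, fun l z hz => ?_⟩
        · have hx'' : x ∈ E := hx'
          have hy'' : y ∈ E := hy'
          rw [hFE x hx'', hFE y hy'']
          exact lev0 x hx'' y hy''
        · have e : (fun i => F (z i)) = fun i => f₀ (z i) :=
            funext fun i => hFE (z i) (hz i).2
          show 𝔹 l (fun i => F (z i)) ↔ 𝔹 l (fun i => f₀ (z i))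
          rw [e]
      · by_cases hk' : k' < k
        · have hs : ∀ x ∈ U, x ∈ s (some k') → ht x < k := by
            intro x hx hx'
            have h1 := hkU' x hx
            rcases hx' with h2 | h2 <;> omega
          refine ⟨fun x hx y hy hx' hy' => hll x y (hs x hx hx') (hs y hy hy'), fun l z hz => ?_⟩
          have e : (fun i => F (z i)) = fun i => de (f (z i)) :=
            funext fun i => Fl (z i) (hs _ (hz i).1 (hz i).2)
          show 𝔹 l (fun i => F (z i)) ↔ 𝔹 l (fun i => f (z i))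
          rw [e]
          exact emb_rel hde l (fun i => f (z i))
        · have hs : ∀ x, x ∈ s (some k') → ¬ ht x < k := by
            intro x hx'
            rcases hx' with h2 | h2 <;> omega
          refine ⟨fun x hx y hy hx' hy' => hrr x y (hs x hx') (hs y hy'), fun l z hz => ?_⟩
          have e : (fun i => F (z i)) = fun i => ga (f (z i)) :=
            funext fun i => Fr (z i) (hs _ (hz i).2)
          show 𝔹 l (fun i => F (z i)) ↔ 𝔹 l (fun i => f (z i))
          rw [e]
          exact emb_rel hga l (fun i => f (z i)))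
  -- the conclusion
  obtain ⟨ep, hep, hepf⟩ := emb_on (A := E) (x := F) (y := f₀) hE (by
    refine ⟨fun a ha b hb => ?_, fun l z hz => hF2 none l z hz⟩
    rw [eq_lv hV (F a), eq_lv hV (f₀ a), hF1, lev0 a ha b hb])
  have hlev : ∀ x y, lv (ep (F x)) (ep (F y)) = lv (f x) (f y) := fun x y => by
    rw [emb_lv hV hep, hF1]
  refine ⟨fun x => ep (F x), hlev, fun x hx => hepf x hx, fun k => ⟨fun a _ b _ => ?_,
    fun l z hz => ?_⟩⟩
  · show f a = f b ↔ ep (F a) = ep (F b)
    rw [eq_lv hV (f a), eq_lv hV (ep (F a)), hlev]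
  · show 𝔹 l (fun i => f (z i)) ↔ 𝔹 l (fun i => ep (F (z i)))
    rw [emb_rel hep l (fun i => F (z i))]
    exact (hF2 (some k) l z hz).symm

end Pool.Agent.H46.CL
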